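import Pool.Agent.T6.H15.BB.GenDefs
import Pool.Agent.T6.H15.BB.MidDefs

/-!
# The hard Lefschetz conjecture for homologically trivial cycles, and products of curves: definitions

The Chow theories `C` and the Weil cohomology theories `W` are those of the starting file
`Pool.Agent.R903.Chow`.
-/

set_option autoImplicit false

open CategoryTheory CategoryTheory.Limits AlgebraicGeometry
open Pool.Agent.H914 Pool.Agent.H914.VarClass Pool.Agent.H914.VarClass.Obj Pool.Agent.R903
open Pool.Agent.T6.H15.BB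

universe u v w

namespace Pool.Agent.T6.H33.BC

/-- The class `D^r x`. -/
def powMul {A : Type v} [CommRing A] (D : A) (r : ℕ) (x : A) : A := D ^ r * x

/-- The map `f` is a bijection from the set of all `x` with `p x` to the set of all `y` with `q y`. -/
def IsBijection {A : Type v} (p q : A → Prop) (f : A → A) : Prop :=
  (∀ x, p x → q (f x)) ∧ (∀ x y, p x → p y → f x = f y → x = y) ∧ ∀ y, q y → ∃ x, p x ∧ f x = y

variable {k : Type u} [Field k] {𝒱 : VarClass k} {C : ChowTheory.{u, v} 𝒱}

/-- Q1 for `X` and the divisor class `D`: for `i ≤ (n + 1) / 2`, `n = dim X`, the multiplication by `D^(n + 1 - 2 i)` is a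
bijection from `CH^i(X)_hom` to `CH^(n + 1 - i)(X)_hom`. -/
def HardLefschetz (W : WeilTheory.{u, v, w} C) (X : 𝒱.Obj) (D : C.CH X) : Prop :=
  ∀ i r : ℕ, 2 * i + r = X.dim + 1 →
    IsBijection (HomTrivial W X i) (HomTrivial W X (i + r)) (powMul D r)

/-- The correspondence `Δ_*(D^r)`, which acts as the multiplication by `D^r`. -/
noncomputable def powCorr (C : ChowTheory.{u, v} 𝒱) {X : 𝒱.Obj} (D : C.CH X) (r : ℕ) : C.CH (X.prod X) :=
  applyLin (C.push (Obj.diag X)) (powMul D r 1)

/-- The standard conjecture of Lefschetz type for `X` and the divisor class `D`: for all `j ≤ n = dim X` the multiplication by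
`D^(n - j)` from `H^j(X)` to `H^(2 n - j)(X)` is bijective, with an inverse given by a correspondence in `CH^j(X × X)`. (It is
true for all ample `D` if `X` is dominated by a product of curves.) -/
def StdLefschetz (W : WeilTheory.{u, v, w} C) (X : 𝒱.Obj) (D : C.CH X) : Prop :=
  InCH C X 1 D ∧ ∀ j r : ℕ, j + r = X.dim → ∃ lam : C.CH (X.prod X), InCH C (X.prod X) j lam ∧
    LeftInvOn (W.gr X j) (W.act lam) (W.act (powCorr C D r)) ∧
    LeftInvOn (W.gr X (j + 2 * r)) (W.act (powCorr C D r)) (W.act lam)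

/-- The class `D` of degree one on the curve `E` satisfies `Δ_* D = D × D`. This is true for the class of a rational point. -/
def IsPointClass (C : ChowTheory.{u, v} 𝒱) (E : 𝒱.Obj) (D : C.CH E) : Prop :=
  E.dim = 1 ∧ InCH C E 1 D ∧ C.deg E D = 1 ∧ powCorr C D 1 = extProd C D D

/-- The divisor class `D × Y + X × D'` on `X × Y`. -/
noncomputable def sumDiv (C : ChowTheory.{u, v} 𝒱) {X Y : 𝒱.Obj} (D : C.CH X) (D' : C.CH Y) : C.CH (X.prod Y) :=
  plus (extProd C D 1) (extProd C 1 D')

/-- `Z` is a product `E_1 × ⋯ × E_n` of pointed curves (`n ≥ 1`), `D` is the sum of the divisor classes given by the points of the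
curves, and `p` is the projector onto `h^1(E_1) ⊗ ⋯ ⊗ h^1(E_n)` given by the points: the tensor product of the projectors
`Δ - e_i × [E_i] - [E_i] × e_i`. -/
inductive PointedProd (C : ChowTheory.{u, v} 𝒱) : ∀ Z : 𝒱.Obj, C.CH Z → C.CH (Z.prod Z) → Prop
  | curve {E : 𝒱.Obj} {e : C.CH E} (he : IsPointClass C E e) : PointedProd C E e (midProj C e)
  | prod {X Y : 𝒱.Obj} {D : C.CH X} {D' : C.CH Y} {p : C.CH (X.prod X)} {q : C.CH (Y.prod Y)}
      (hp : PointedProd C X D p) (hq : PointedProd C Y D' q) :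
      PointedProd C (X.prod Y) (sumDiv C D D') (tens C p q)

/-- `h(X)` is a direct summand of a finite direct sum of motives `L^r` and `h(Z)(-r)`, where `Z` is a product of pointed
curves. This is the case if `X` is dominated by such a product. -/
def OfCurves (C : ChowTheory.{u, v} 𝒱) (X : 𝒱.Obj) : Prop :=
  SumThrough C (fun Z p => (∃ D q, PointedProd C Z D q) ∧ p = C.diagC Z) X (C.diagC X)

/-- `CH^m(h^1(E_1) ⊗ ⋯ ⊗ h^1(E_n))_hom = 0` for all products of pointed curves and all `m` with `2 m ≠ n + 1`. -/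
def MultilinearVanishing (W : WeilTheory.{u, v, w} C) : Prop :=
  ∀ (Z : 𝒱.Obj) (D : C.CH Z) (p : C.CH (Z.prod Z)), PointedProd C Z D p → ∀ m : ℕ, 2 * m ≠ Z.dim + 1 →
    ∀ x, HomTrivial W Z m x → corrAct C p x = x → x = 0

/-- A correspondence `γ` from `X` to `Y` which acts as zero on `H^(2 i - 1)(X)` acts as zero on `CH^i(X)_hom`. -/
def CohomologyDecides (W : WeilTheory.{u, v, w} C) : Prop :=
  ∀ (X Y : 𝒱.Obj) (i j c : ℕ) (γ : C.CH (X.prod Y)) (x : C.CH X), j + 1 = 2 * i → InCH C (X.prod Y) c γ →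
    Kills W γ j → HomTrivial W X i x → corrAct C γ x = 0

/-- There is a Bloch-Beilinson filtration with `F^2 = 0`. -/
def ShortFiltration (W : WeilTheory.{u, v, w} C) : Prop :=
  ∃ F : Family C, IsBB W F ∧ ∀ (X : 𝒱.Obj) (i : ℕ) (x : C.CH X), InF F X i 2 x → x = 0

end Pool.Agent.T6.H33.BC
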