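import Pool.Agent.T6.H33.BC.Pure

/-!
# The hard Lefschetz conjecture for homologically trivial cycles and products of curves
-/

set_option autoImplicit false

open CategoryTheory CategoryTheory.Limits AlgebraicGeometry
open Pool.Agent.H914 Pool.Agent.H914.VarClass Pool.Agent.H914.VarClass.Obj Pool.Agent.R903
open Pool.Agent.R903.WeilTheory Pool.Agent.T6.H15.BB

universe u v w

namespace Pool.Agent.T6.H33.BC

variable {k : Type u} [Field k] {𝒱 : VarClass k} {C : ChowTheory.{u, v} 𝒱}
  {W : WeilTheory.{u, v, w} C} {X Y Z T E : 𝒱.Obj}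

/-! ### codimension zero -/

lemma mem_gr_zero_CH {x : C.CH X} (hx : x ∈ C.gr X 0) : ∃ c : ℚ, x = c • (1 : C.CH X) := by
  classical
  obtain ⟨z, hz, rfl⟩ := C.mem_gr.1 hx
  refine ⟨X.V.coeff z (genericPoint X.V.X), ?_⟩
  rw [← C.cls_fund X, ← map_smul]
  congr 1
  refine Finsupp.ext (α := X.V.X) (M := ℚ) fun y => ?_
  change X.V.coeff z y = X.V.coeff (X.V.coeff z (genericPoint X.V.X) • X.V.fundCycle) y
  have e1 : X.V.coeff (X.V.coeff z (genericPoint X.V.X) • X.V.fundCycle) y =
      X.V.coeff z (genericPoint X.V.X) * X.V.coeff X.V.fundCycle y :=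
    Finsupp.smul_apply (M := ℚ) (α := X.V.X) _ _ y
  rw [e1]
  by_cases hy : y = genericPoint X.V.X
  · have e2 : X.V.coeff X.V.fundCycle y = 1 := by
      rw [hy]
      exact Finsupp.single_eq_same (M := ℚ) (α := X.V.X)
    rw [e2, mul_one, hy]
  · have e2 : X.V.coeff X.V.fundCycle y = 0 :=
      Finsupp.single_eq_of_ne (M := ℚ) (α := X.V.X) hy
    rw [e2, mul_zero]
    by_contra h0
    have h1 : Order.coheight y = ((0 : ℕ) : ℕ∞) := hz y h0
    rw [Nat.cast_zero, Order.coheight_eq_zero] at h1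
    have h2 : y ≤ genericPoint X.V.X := genericPoint_specializes y
    have h3 : y ⤳ genericPoint X.V.X := h1 h2
    exact hy (h3.antisymm (genericPoint_specializes y)).eq

lemma homTrivial_zero' (hC : C.Polarized) (W : WeilTheory.{u, v, w} C) (X : 𝒱.Obj) (x : C.CH X)
    (hx : HomTrivial W X 0 x) : x = 0 := by
  obtain ⟨c, rfl⟩ := mem_gr_zero_CH hx.1
  obtain ⟨D, _, hD⟩ := hC X
  have h1 := hx.cl
  rw [W.cl_smul, map_one] at h1
  have h2 : C.deg X (c • (1 : C.CH X) * D ^ X.dim) = 0 := deg_of_cl W hx.cl _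
  rw [smul_mul_assoc, one_mul, map_smul, smul_eq_mul] at h2
  rw [(mul_eq_zero.mp h2).resolve_right hD, zero_smul]

/-! ### multiplication by powers of a divisor class -/

lemma powCorr_eq (D : C.CH X) (r : ℕ) : powCorr C D r = C.span (𝟙 X) (𝟙 X) (D ^ r) := by
  change C.push (Obj.diag X) (D ^ r * 1) = _
  rw [mul_one]
  rfl

lemma pow_mem_gr {D : C.CH X} (hD : D ∈ C.gr X 1) (r : ℕ) : D ^ r ∈ C.gr X r := by
  induction r with
  | zero => rw [pow_zero]; exact C.one_mem X
  | succ r ih => rw [pow_succ]; exact C.mul_mem ih hD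

lemma powCorr_mem {D : C.CH X} (hD : D ∈ C.gr X 1) (r : ℕ) : powCorr C D r ∈ C.gr (X.prod X) (r + X.dim) := by
  rw [powCorr_eq]
  exact C.span_mem _ _ (pow_mem_gr hD r) (by omega)

lemma act_powCorr (D : C.CH X) (r : ℕ) (x : C.CH X) : C.act (powCorr C D r) x = D ^ r * x := by
  rw [powCorr_eq, C.act_span, C.pull_id, C.push_id]

lemma homTrivial_sub {i : ℕ} {x y : C.CH X} (hx : HomTrivial W X i x) (hy : HomTrivial W X i y) :
    HomTrivial W X i (x - y) :=
  homTrivial_mk (Submodule.sub_mem _ hx.1 hy.1) (by rw [map_sub, hx.cl, hy.cl, sub_zero])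

/-! ### the standard conjecture and the hard Lefschetz conjecture -/

theorem CohomologyDecides.hardLefschetz (h : CohomologyDecides W)
    (h0 : ∀ (X : 𝒱.Obj) (x : C.CH X), HomTrivial W X 0 x → x = 0) {D : C.CH X} (hD : StdLefschetz W X D) :
    HardLefschetz W X D := by
  intro i r hir
  have hD1 : D ∈ C.gr X 1 := hD.1
  have hL : powCorr C D r ∈ C.gr (X.prod X) (r + X.dim) := powCorr_mem hD1 r
  refine ⟨fun x hx => ?_, ?_, ?_⟩
  · change HomTrivial W X (i + r) (D ^ r * x)
    rw [← act_powCorr]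
    exact hx.act hL (by omega)
  · intro x y hx hy hxy
    rcases Nat.eq_zero_or_pos i with rfl | hi
    · rw [h0 _ _ hx, h0 _ _ hy]
    obtain ⟨lam, hl, h1, _⟩ := hD.2 (2 * i - 1) r (by omega)
    have hl' : lam ∈ C.gr (X.prod X) (2 * i - 1) := hl
    have hcm : C.comp (powCorr C D r) lam ∈ C.gr (X.prod X) X.dim := C.comp_mem hL hl' (by omega)
    have hz := homTrivial_sub hx hy
    have hz0 : D ^ r * (x - y) = 0 := by
      rw [mul_sub]
      exact sub_eq_zero.mpr hxy
    refine sub_eq_zero.mp ?_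
    generalize x - y = z at hz hz0 ⊢
    have h2 := h X X i (2 * i - 1) X.dim (C.comp (powCorr C D r) lam - C.diagC X) z (by omega)
      (Submodule.sub_mem _ hcm (C.diagC_mem X)) (fun a ha => by
        rw [W.act_sub, LinearMap.sub_apply, W.act_comp _ hl', W.act_diagC, h1 a ha, sub_self]) hz
    change C.act _ z = 0 at h2
    rw [C.act_sub, LinearMap.sub_apply, C.act_comp, act_powCorr, hz0, map_zero, C.act_diagC, zero_sub,
      neg_eq_zero] at h2
    exact h2
  · intro y hy
    rcases Nat.eq_zero_or_pos i with rfl | hi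
    · refine ⟨0, homTrivial_mk (Submodule.zero_mem _) (map_zero _), ?_⟩
      have : y ∈ C.gr X (0 + r) := hy.1
      rw [C.gr_eq_bot X (0 + r) (by omega), Submodule.mem_bot] at this
      rw [this]
      exact mul_zero _
    obtain ⟨lam, hl, _, h1⟩ := hD.2 (2 * i - 1) r (by omega)
    have hl' : lam ∈ C.gr (X.prod X) (2 * i - 1) := hl
    have hcm : C.comp lam (powCorr C D r) ∈ C.gr (X.prod X) X.dim := C.comp_mem hl' hL (by omega)
    have h2 := h X X (i + r) (2 * i - 1 + 2 * r) X.dim (C.comp lam (powCorr C D r) - C.diagC X) y (by omega)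
      (Submodule.sub_mem _ hcm (C.diagC_mem X)) (fun a ha => by
        rw [W.act_sub, LinearMap.sub_apply, W.act_comp _ hL, W.act_diagC, h1 a ha, sub_self]) hy
    change C.act _ y = 0 at h2
    rw [C.act_sub, LinearMap.sub_apply, C.act_comp, act_powCorr, C.act_diagC, sub_eq_zero] at h2
    exact ⟨C.act lam y, hy.act hl' (by omega), h2⟩

/-! ### products of pointed curves -/

/-- the family of the motives `h^1(E_1) ⊗ ⋯ ⊗ h^1(E_n)` of pointed curves -/
def PointedMotive (C : ChowTheory.{u, v} 𝒱) (Z : 𝒱.Obj) (w : ℕ) (p : C.CH (Z.prod Z)) : Prop :=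
  w = Z.dim ∧ ∃ D, PointedProd C Z D p

lemma PointedProd.curveMotive {D : C.CH Z} {p : C.CH (Z.prod Z)} (h : PointedProd C Z D p) :
    CurveMotive C Z Z.dim p := by
  induction h with
  | @curve E e he =>
    have h1 := CurveMotive.curve (C := C) he.1 he.2.1 he.2.2.1
    rwa [← he.1] at h1
  | prod _ _ ih ih' => exact CurveMotive.prod ih ih'

theorem pureFamily_pointed (W : WeilTheory.{u, v, w} C) : PureFamily W (PointedMotive C) := by
  have hF := pureFamily_curveMotive W
  refine ⟨?_, ?_, ?_, ?_, ?_, ?_⟩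
  · rintro Z w p ⟨rfl, D, h⟩
    exact hF.self _ _ _ h.curveMotive
  · rintro Z w p ⟨rfl, D, h⟩
    exact hF.idem _ _ _ h.curveMotive
  · rintro Z w p ⟨rfl, D, h⟩
    exact hF.le _ _ _ h.curveMotive
  · rintro Z w l p ⟨rfl, D, h⟩
    exact hF.pure _ _ l _ h.curveMotive
  · rintro Z w w' p ⟨rfl, D, h⟩ hw
    refine ⟨by omega, D, ?_⟩
    rw [dual_eq, h.curveMotive.transp]
    exact h
  · rintro Z Z' w w' p p' ⟨rfl, D, h⟩ ⟨rfl, D', h'⟩
    exact ⟨rfl, _, PointedProd.prod h h'⟩

theorem sumThrough_pointed {D : C.CH Z} {q : C.CH (Z.prod Z)} (h : PointedProd C Z D q) :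
    SumThrough C (fun Z p => ∃ w, PointedMotive C Z w p) Z (C.diagC Z) := by
  induction h with
  | @curve E e hp =>
    have hE : E.dim = 1 := hp.1
    have he' : e ∈ C.gr E 1 := hp.2.1
    have h1 : SumThrough C (fun Z p => ∃ w, PointedMotive C Z w p) E (C.ext e 1) :=
      SumThrough.of_ext he' (C.one_mem E) (by omega)
    have h2 : SumThrough C (fun Z p => ∃ w, PointedMotive C Z w p) E (C.ext 1 e) :=
      SumThrough.of_ext (C.one_mem E) he' (by omega)
    have h3 : SumThrough C (fun Z p => ∃ w, PointedMotive C Z w p) E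
        (C.comp (C.comp (C.diagC E) (midProj C e)) (C.diagC E)) :=
      SumThrough.of_mot (r := 0) ⟨E.dim, rfl, e, PointedProd.curve hp⟩ (C.diagC_mem E) (C.diagC_mem E)
        (add_zero _)
    have h4 := (h1.add h2).add h3
    rw [C.diagC_comp, C.comp_diagC] at h4
    have e1 : C.ext e 1 + C.ext 1 e + midProj C e = C.diagC E := by
      change C.ext e 1 + C.ext 1 e + (C.diagC E - C.ext e 1 - C.ext 1 e) = C.diagC E
      abel
    rwa [e1] at h4
  | @prod X Y D D' p q hp hq ih ih' =>
    rw [← C.tensor_diagC]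
    refine SumThrough.tensor ?_ ih ih'
    rintro Z Z' p p' ⟨w, rfl, D, hp⟩ ⟨w', rfl, D', hp'⟩
    exact ⟨_, rfl, _, PointedProd.prod hp hp'⟩

theorem OfCurves.pointed (h : OfCurves C X) :
    SumThrough C (fun Z p => ∃ w, PointedMotive C Z w p) X (C.diagC X) := by
  refine SumThrough.bind ?_ h
  rintro Z p ⟨⟨D, q, hq⟩, rfl⟩
  exact sumThrough_pointed hq

/-- multiplication by `D` kills the multilinear part -/
lemma PointedProd.mul {D : C.CH Z} {p : C.CH (Z.prod Z)} (h : PointedProd C Z D p) :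
    p * C.pull (fst Z Z) D = 0 ∧ p * C.pull (snd Z Z) D = 0 := by
  induction h with
  | @curve E e hp =>
    obtain ⟨hE, he, _, hpt⟩ := hp
    have h2 : e * e = 0 := by
      have := C.mul_mem he he
      rwa [C.gr_eq_bot E _ (by omega), Submodule.mem_bot] at this
    have e1 : C.push (Obj.diag E) e = C.ext e e := by
      have h3 : powCorr C e 1 = C.push (Obj.diag E) (e ^ 1 * 1) := rfl
      rw [pow_one, mul_one] at h3
      rw [← h3]
      exact hpt
    have hd1 : C.diagC E * C.pull (fst E E) e = C.ext e e := by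
      rw [ChowTheory.diagC, ← C.push_mul, ← C.pull_comp, diag_fst, C.pull_id, one_mul, e1]
    have hd2 : C.diagC E * C.pull (snd E E) e = C.ext e e := by
      rw [ChowTheory.diagC, ← C.push_mul, ← C.pull_comp, diag_snd, C.pull_id, one_mul, e1]
    have hm : midProj C e = C.diagC E - C.ext e 1 - C.ext 1 e := rfl
    constructor
    · rw [hm, sub_mul, sub_mul, hd1]
      have h4 : C.ext e 1 * C.pull (fst E E) e = 0 := by
        have : C.ext e 1 * C.pull (fst E E) e = C.pull (fst E E) (e * e) * C.pull (snd E E) 1 := by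
          rw [ChowTheory.ext, C.pull_mul]
          ring
        rw [this, h2, map_zero, zero_mul]
      have h5 : C.ext 1 e * C.pull (fst E E) e = C.ext e e := by
        rw [ChowTheory.ext, ChowTheory.ext, map_one, one_mul, mul_comm]
      rw [h4, h5]
      abel
    · rw [hm, sub_mul, sub_mul, hd2]
      have h4 : C.ext 1 e * C.pull (snd E E) e = 0 := by
        have : C.ext 1 e * C.pull (snd E E) e = C.pull (fst E E) 1 * C.pull (snd E E) (e * e) := by
          rw [ChowTheory.ext, C.pull_mul]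
          ring
        rw [this, h2, map_zero, mul_zero]
      have h5 : C.ext e 1 * C.pull (snd E E) e = C.ext e e := by
        rw [ChowTheory.ext, ChowTheory.ext, map_one, mul_one]
      rw [h4, h5]
      abel
  | @prod X Y D D' p q hp hq ih ih' =>
    have hs : sumDiv C D D' = C.pull (fst X Y) D + C.pull (snd X Y) D' := by
      change C.pull (fst X Y) D * C.pull (snd X Y) 1 + C.pull (fst X Y) 1 * C.pull (snd X Y) D' = _
      rw [map_one, map_one, mul_one, one_mul]
    have ht : tens C p q = C.pull (prodMap (fst X Y) (fst X Y)) p * C.pull (prodMap (snd X Y) (snd X Y)) q := rfl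
    rw [hs, ht, map_add, map_add]
    have a1 : C.pull (fst (X.prod Y) (X.prod Y)) (C.pull (fst X Y) D) =
        C.pull (prodMap (fst X Y) (fst X Y)) (C.pull (fst X X) D) := by
      rw [← C.pull_comp, ← C.pull_comp, prodMap_fst]
    have a2 : C.pull (fst (X.prod Y) (X.prod Y)) (C.pull (snd X Y) D') =
        C.pull (prodMap (snd X Y) (snd X Y)) (C.pull (fst Y Y) D') := by
      rw [← C.pull_comp, ← C.pull_comp, prodMap_fst]
    have a3 : C.pull (snd (X.prod Y) (X.prod Y)) (C.pull (fst X Y) D) =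
        C.pull (prodMap (fst X Y) (fst X Y)) (C.pull (snd X X) D) := by
      rw [← C.pull_comp, ← C.pull_comp, prodMap_snd]
    have a4 : C.pull (snd (X.prod Y) (X.prod Y)) (C.pull (snd X Y) D') =
        C.pull (prodMap (snd X Y) (snd X Y)) (C.pull (snd Y Y) D') := by
      rw [← C.pull_comp, ← C.pull_comp, prodMap_snd]
    rw [a1, a2, a3, a4]
    have b1 : C.pull (prodMap (fst X Y) (fst X Y)) p * C.pull (prodMap (fst X Y) (fst X Y)) (C.pull (fst X X) D) = 0 := by
      rw [← C.pull_mul, ih.1, map_zero]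
    have b2 : C.pull (prodMap (snd X Y) (snd X Y)) q * C.pull (prodMap (snd X Y) (snd X Y)) (C.pull (fst Y Y) D') = 0 := by
      rw [← C.pull_mul, ih'.1, map_zero]
    have b3 : C.pull (prodMap (fst X Y) (fst X Y)) p * C.pull (prodMap (fst X Y) (fst X Y)) (C.pull (snd X X) D) = 0 := by
      rw [← C.pull_mul, ih.2, map_zero]
    have b4 : C.pull (prodMap (snd X Y) (snd X Y)) q * C.pull (prodMap (snd X Y) (snd X Y)) (C.pull (snd Y Y) D') = 0 := by
      rw [← C.pull_mul, ih'.2, map_zero]
    constructor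
    · linear_combination C.pull (prodMap (snd X Y) (snd X Y)) q * b1 + C.pull (prodMap (fst X Y) (fst X Y)) p * b2
    · linear_combination C.pull (prodMap (snd X Y) (snd X Y)) q * b3 + C.pull (prodMap (fst X Y) (fst X Y)) p * b4

lemma PointedProd.act_mul {D : C.CH Z} {p : C.CH (Z.prod Z)} (h : PointedProd C Z D p) (x : C.CH Z) :
    C.act p (D * x) = 0 := by
  rw [C.act_apply, C.pull_mul, ← mul_assoc, h.mul.1, zero_mul, map_zero]

lemma PointedProd.mul_act {D : C.CH Z} {p : C.CH (Z.prod Z)} (h : PointedProd C Z D p) (x : C.CH Z) :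
    D * C.act p x = 0 := by
  rw [C.act_apply, ← C.mul_push, ← mul_assoc, mul_comm _ p, h.mul.2, zero_mul, map_zero]

/-- Q1 for products of pointed curves implies the vanishing of the multilinear parts. -/
theorem multilinearVanishing_of_hardLefschetz
    (h : ∀ (Z : 𝒱.Obj) (D : C.CH Z) (p : C.CH (Z.prod Z)), PointedProd C Z D p → HardLefschetz W Z D) :
    MultilinearVanishing W := by
  intro Z D p hp m hm x hx hpx
  have hpx' : C.act p x = x := hpx
  rcases Nat.lt_or_ge (2 * m) (Z.dim + 1) with h1 | h1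
  · obtain ⟨r, hr⟩ : ∃ r, 2 * m + (r + 1) = Z.dim + 1 := ⟨Z.dim - 2 * m, by omega⟩
    refine (h Z D p hp m (r + 1) hr).2.1 x 0 hx (homTrivial_mk (Submodule.zero_mem _) (map_zero _)) ?_
    change D ^ (r + 1) * x = D ^ (r + 1) * 0
    rw [mul_zero, pow_succ, mul_assoc, ← hpx', hp.mul_act, mul_zero]
  · rcases Nat.lt_or_ge (Z.dim) m with h2 | h2
    · have h3 : x ∈ C.gr Z m := hx.1
      rwa [C.gr_eq_bot Z m h2, Submodule.mem_bot] at h3
    · obtain ⟨i, hi⟩ : ∃ i, i + m = Z.dim + 1 := ⟨Z.dim + 1 - m, by omega⟩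
      obtain ⟨r, hr⟩ : ∃ r, i + (r + 1) = m := ⟨m - i - 1, by omega⟩
      have h3 := (h Z D p hp i (r + 1) (by omega)).2.2 x (by rw [hr]; exact hx)
      obtain ⟨y, _, hy⟩ := h3
      have hy' : D ^ (r + 1) * y = x := hy
      rw [← hpx', ← hy', pow_succ', mul_assoc, hp.act_mul]

theorem MultilinearVanishing.centre (h : MultilinearVanishing W) : CentreVanishing W (PointedMotive C) := by
  rintro Z w p ⟨rfl, D, hp⟩ m hm x hx hpx
  exact h Z D p hp m hm x hx hpx

theorem CentreVanishing.multilinear (h : CentreVanishing W (PointedMotive C)) : MultilinearVanishing W := by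
  intro Z D p hp m hm x hx hpx
  exact h Z Z.dim p ⟨rfl, D, hp⟩ m hm x hx hpx

theorem main_tfae (hC : C.Polarized) (hX : ∀ X : 𝒱.Obj, OfCurves C X)
    (hB : ∀ (Z : 𝒱.Obj) (D : C.CH Z) (p : C.CH (Z.prod Z)), PointedProd C Z D p → StdLefschetz W Z D) :
    [ ∀ (Z : 𝒱.Obj) (D : C.CH Z) (p : C.CH (Z.prod Z)), PointedProd C Z D p → HardLefschetz W Z D,
      MultilinearVanishing W,
      CohomologyDecides W,
      ShortFiltration W,
      ∀ (X : 𝒱.Obj) (D : C.CH X), StdLefschetz W X D → HardLefschetz W X D ].TFAE := by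
  have hX' := fun X => (hX X).pointed
  have hP := pureFamily_pointed W
  have h0 := homTrivial_zero' hC W
  tfae_have 1 → 2 := multilinearVanishing_of_hardLefschetz
  tfae_have 2 → 3 := fun h => cohomologyDecides hP h.centre hX'
  tfae_have 3 → 2 := fun h => (CohomologyDecides.centre hP h h0).multilinear
  tfae_have 2 → 4 := fun h => shortFiltration hP h.centre hX'
  tfae_have 4 → 2 := fun h => (ShortFiltration.centre hP h).multilinear
  tfae_have 3 → 5 := fun h X D hD => CohomologyDecides.hardLefschetz h h0 hD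
  tfae_have 5 → 1 := fun h Z D p hp => h Z D (hB Z D p hp)
  tfae_finish

end Pool.Agent.T6.H33.BC
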