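import Pool.Agent.T6.H33.BC.Defs
import Pool.Agent.T6.H15.BB.GenCurve

/-!
# Families of pure motives with homologically trivial cycles only in the middle
-/

set_option autoImplicit false

open CategoryTheory CategoryTheory.Limits AlgebraicGeometry
open Pool.Agent.H914 Pool.Agent.H914.VarClass Pool.Agent.H914.VarClass.Obj Pool.Agent.R903
open Pool.Agent.R903.WeilTheory Pool.Agent.T6.H15.BB

universe u v w

namespace Pool.Agent.T6.H33.BC

variable {k : Type u} [Field k] {𝒱 : VarClass k} {C : ChowTheory.{u, v} 𝒱}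
  {W : WeilTheory.{u, v, w} C} {X Y Z T E : 𝒱.Obj}

/-- homologically trivial classes on the motives of the family only in the middle -/
def CentreVanishing (W : WeilTheory.{u, v, w} C) (P : ∀ Z : 𝒱.Obj, ℕ → C.CH (Z.prod Z) → Prop) : Prop :=
  ∀ (Z : 𝒱.Obj) (w : ℕ) (p : C.CH (Z.prod Z)), P Z w p → ∀ m : ℕ, 2 * m ≠ w + 1 →
    ∀ x, HomTrivial W Z m x → corrAct C p x = x → x = 0

variable {P : ∀ Z : 𝒱.Obj, ℕ → C.CH (Z.prod Z) → Prop}

lemma CentreVanishing.pure (h : CentreVanishing W P) : PureVanishing W P := by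
  intro Z w p hp m hm x hx hpx
  exact h Z w p hp m (by omega) x hx hpx

lemma deg_of_cl (W : WeilTheory.{u, v, w} C) {x : C.CH X} (hx : W.cl X x = 0) (u : C.CH X) :
    C.deg X (x * u) = 0 := by
  have h1 : (C.deg X (x * u) : W.K) = 0 := by
    rw [← W.tr_cl, W.cl_mul, hx, zero_mul, map_zero]
  exact_mod_cast h1

lemma fixed (hP : PureFamily W P) {w : ℕ} {p : C.CH (Z.prod Z)} (hp : P Z w p) (x : C.CH Z) :
    C.act p (C.act p x) = C.act p x := by
  rw [← C.act_comp p p, ← compose_eq, hP.idem Z w p hp]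

/-- A class which is killed by all morphisms to the motives of the family is zero. -/
lemma eq_zero_of_components (hX : SumThrough C (fun Z p => ∃ w, P Z w p) X (C.diagC X)) {x : C.CH X}
    (hx : W.cl X x = 0)
    (h : ∀ (Z : 𝒱.Obj) (a : ℕ) (p : C.CH (Z.prod Z)), P Z a p → ∀ (r s : ℕ) (β : C.CH (X.prod Z)),
      β ∈ C.gr (X.prod Z) s → s + r = X.dim → C.act p (C.act β x) = 0) : x = 0 := by
  have key : ∀ γ, SumThrough C (fun Z p => ∃ w, P Z w p) X γ → C.act γ x = 0 := by
    intro γ hγ
    induction hγ with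
    | zero => rw [C.act_zero, LinearMap.zero_apply]
    | @lef γ _ r' s' u v hu hv hs' ih =>
      rw [plus_eq, C.act_add, LinearMap.add_apply, ih, zero_add, extProd_eq, C.act_ext,
        deg_of_cl W hx, zero_smul]
    | @mot γ _ Z p hp r s β α hβ hα hs ih =>
      obtain ⟨a, hp⟩ := hp
      rw [plus_eq, C.act_add, LinearMap.add_apply, ih, zero_add, compose_eq, compose_eq,
        C.act_comp, C.act_comp, h Z a p hp r s β hβ hs, map_zero]
  have := key _ hX
  rwa [C.act_diagC] at this

theorem cohomologyDecides (hP : PureFamily W P) (hV : CentreVanishing W P)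
    (hX : ∀ X : 𝒱.Obj, SumThrough C (fun Z p => ∃ w, P Z w p) X (C.diagC X)) :
    CohomologyDecides W := by
  intro X Y i j c γ x hj hγ hk hx
  change C.act γ x = 0
  have hγ' : γ ∈ C.gr (X.prod Y) c := hγ
  -- the target
  rcases Nat.lt_or_ge (i + c) X.dim with h0 | h0
  · exact C.act_eq_zero hγ' hx.1 h0
  obtain ⟨l, hl⟩ : ∃ l, i + c = l + X.dim := ⟨i + c - X.dim, by omega⟩
  refine eq_zero_of_components (W := W) (hX Y) (hx.act hγ' hl).cl ?_
  intro Z' b p' hp' r' s' β' hβ' hs'
  -- the source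
  have key : ∀ ξ, SumThrough C (fun Z p => ∃ w, P Z w p) X ξ →
      C.act p' (C.act β' (C.act γ (C.act ξ x))) = 0 := by
    intro ξ hξ
    induction hξ with
    | zero => rw [C.act_zero, LinearMap.zero_apply, map_zero, map_zero, map_zero]
    | @lef ξ _ r s u v hu hv hs ih =>
      rw [plus_eq, C.act_add, LinearMap.add_apply, map_add, map_add, map_add, ih, zero_add,
        extProd_eq, C.act_ext, hx.deg W, zero_smul, map_zero, map_zero, map_zero]
    | @mot ξ _ Z p hp r s β α hβ hα hs ih =>
      obtain ⟨a, hp⟩ := hp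
      rw [plus_eq, C.act_add, LinearMap.add_apply, map_add, map_add, map_add, ih, zero_add,
        compose_eq, compose_eq, C.act_comp, C.act_comp]
      have hpm : p ∈ C.gr (Z.prod Z) Z.dim := hP.self Z a p hp
      have hpm' : p' ∈ C.gr (Z'.prod Z') Z'.dim := hP.self Z' b p' hp'
      by_cases hr : r ≤ i
      swap
      · rw [C.act_eq_zero hβ hx.1 (by omega), map_zero, map_zero, map_zero, map_zero, map_zero]
      have hy := hx.act_act hβ hs hr hpm
      have hyf := fixed hP hp (C.act β x)
      generalize C.act p (C.act β x) = y at hy hyf ⊢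
      by_cases ha : 2 * (i - r) = a + 1
      swap
      · rw [hV Z a p hp (i - r) ha y hy hyf, map_zero, map_zero, map_zero, map_zero]
      have haZ := hP.le Z a p hp
      have hα' : α ∈ C.gr (Z.prod X) (Z.dim + r) := hα
      have h1 : HomTrivial W X i (C.act α y) := hy.act hα' (by omega)
      have h2 : HomTrivial W Y l (C.act γ (C.act α y)) := h1.act hγ' hl
      by_cases hr' : r' ≤ l
      swap
      · rw [C.act_eq_zero hβ' h2.1 (by omega), map_zero]
      have h3 := h2.act_act hβ' hs' hr' hpm'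
      have h3f := fixed hP hp' (C.act β' (C.act γ (C.act α y)))
      by_cases hb : 2 * (l - r') = b + 1
      swap
      · exact hV Z' b p' hp' (l - r') hb _ h3 h3f
      -- the block
      have hη : C.comp (C.comp α γ) β' ∈ C.gr (Z.prod Z') (l - r' + Z.dim - (i - r)) :=
        C.comp_mem (C.comp_mem (r := l + Z.dim + r - i) hα' hγ' (by omega)) hβ' (by omega)
      have h4 : C.comp (C.comp p (C.comp (C.comp α γ) β')) p' = 0 := by
        refine hP.block hV.pure hp hp' hη (Or.inr ⟨by omega, ?_⟩)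
        intro v hv
        rw [W.act_comp _ hβ', W.act_comp _ hγ']
        have h6 : W.act α v ∈ W.gr X j := act_mem_H hα' hv (by omega)
        rw [hk _ h6, map_zero]
      have h5 := congrArg (fun ξ => C.act ξ y) h4
      simp only [C.act_comp, C.act_zero, LinearMap.zero_apply] at h5
      rwa [hyf] at h5
  have h8 := key _ (hX X)
  rwa [C.act_diagC] at h8

lemma homTrivial_zero (hP : PureFamily W P) (hV : CentreVanishing W P)
    (hX : ∀ X : 𝒱.Obj, SumThrough C (fun Z p => ∃ w, P Z w p) X (C.diagC X)) {x : C.CH X}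
    (hx : HomTrivial W X 0 x) : x = 0 := by
  refine eq_zero_of_components (W := W) (hX X) hx.cl ?_
  intro Z a p hp r s β hβ hs
  by_cases hr : r ≤ 0
  · have h1 := hx.act_act hβ hs hr (hP.self Z a p hp)
    exact hV Z a p hp (0 - r) (by omega) _ h1 (fixed hP hp _)
  · rw [C.act_eq_zero hβ hx.1 (by omega), map_zero]

/-! ### the filtration -/

lemma inF_corrAct {F : Family C} (hF : IsBB W F) {i j k c : ℕ} {γ : C.CH (X.prod Y)} {x : C.CH X}
    (hγ : γ ∈ C.gr (X.prod Y) c) (h : i + c = j + X.dim) (hx : InF F X i k x) :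
    InF F Y j k (C.act γ x) := by
  have h1 : InF F (X.prod Y) c 0 γ := (hF.fil.zero _ _ _).2 hγ
  have h2 : InF F (X.prod Y) i k (C.pull (fst X Y) x) := hF.functorial.pull _ _ _ _ hx
  have h3 := hF.functorial.mul _ _ _ _ _ _ _ h1 h2
  rw [zero_add] at h3
  exact hF.functorial.push (snd X Y) (c + i) j k _ (by rw [dim_prod]; omega) h3

lemma inF_anti {F : Family C} (hF : IsBB W F) {i : ℕ} {x : C.CH X} (k l : ℕ) (h : InF F X i (k + l) x) :
    InF F X i k x := by
  induction l with
  | zero => exact h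
  | succ l ih => exact ih (hF.fil.anti _ _ _ _ h)

theorem shortFiltration (hP : PureFamily W P) (hV : CentreVanishing W P)
    (hX : ∀ X : 𝒱.Obj, SumThrough C (fun Z p => ∃ w, P Z w p) X (C.diagC X)) :
    ShortFiltration W := by
  obtain ⟨_, h⟩ := hP.main hX
  obtain ⟨F, hF⟩ := h.2 hV.pure
  refine ⟨F, hF, fun X i x hx => ?_⟩
  have hx1 : HomTrivial W X i x := (hF.fil.one _ _ _).1 (inF_anti hF 1 1 hx)
  refine eq_zero_of_components (W := W) (hX X) hx1.cl ?_
  intro Z a p hp r s β hβ hs
  by_cases hr : r ≤ i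
  swap
  · rw [C.act_eq_zero hβ hx1.1 (by omega), map_zero]
  have hpm : p ∈ C.gr (Z.prod Z) Z.dim := hP.self Z a p hp
  have h1 := hx1.act_act hβ hs hr hpm
  have hyf := fixed hP hp (C.act β x)
  by_cases ha : 2 * (i - r) = a + 1
  swap
  · exact hV Z a p hp (i - r) ha _ h1 hyf
  have h2 : InF F Z (i - r) 2 (C.act p (C.act β x)) :=
    inF_corrAct hF hpm rfl (inF_corrAct hF hβ (by omega) hx)
  generalize C.act p (C.act β x) = y at h1 hyf h2 ⊢
  have h3 : ∀ n, InF F Z (i - r) (2 + n) y := by
    intro n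
    induction n with
    | zero => exact h2
    | succ n ih =>
      by_cases hn : 2 + n ≤ 2 * (i - r)
      · have h4 := hF.motivic Z (i - r) (2 * (i - r) - (2 + n)) (2 + n) (by omega) p hpm
          (hP.pure Z a _ p hp (by omega)) y ih
        change InF F Z (i - r) (2 + n + 1) (C.act p y) at h4
        rwa [hyf] at h4
      · have h5 : InF F Z (i - r) (i - r + 1) y :=
          inF_anti hF (i - r + 1) (2 + n - (i - r + 1)) (by
            have e : i - r + 1 + (2 + n - (i - r + 1)) = 2 + n := by omega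
            rwa [e])
        rw [hF.fil.top _ _ _ h5]
        exact Submodule.zero_mem _
  have h6 := inF_anti hF (i - r + 1) 1 (by
    have := h3 (i - r)
    have e : i - r + 1 + 1 = 2 + (i - r) := by omega
    rwa [e])
  exact hF.fil.top _ _ _ h6

theorem ShortFiltration.centre (hP : PureFamily W P) (h : ShortFiltration W) : CentreVanishing W P := by
  obtain ⟨F, hF, h2⟩ := h
  intro Z w p hp m hm x hx hpx
  have h1 : InF F Z m 1 x := (hF.fil.one _ _ _).2 hx
  rcases Nat.eq_zero_or_pos m with rfl | hm0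
  · exact hF.fil.top _ _ _ h1
  have h3 := hF.motivic Z m (2 * m - 1) 1 (by omega) p (hP.self Z w p hp)
    (hP.pure Z w _ p hp (by omega)) x h1
  rw [hpx] at h3
  exact h2 _ _ _ h3

theorem CohomologyDecides.centre (hP : PureFamily W P) (h : CohomologyDecides W)
    (h0 : ∀ (X : 𝒱.Obj) (x : C.CH X), HomTrivial W X 0 x → x = 0) : CentreVanishing W P := by
  intro Z w p hp m hm x hx hpx
  rcases Nat.eq_zero_or_pos m with rfl | hm0
  · exact h0 _ _ hx
  rw [← hpx]
  exact h Z Z m (2 * m - 1) Z.dim p x (by omega) (hP.self Z w p hp) (hP.pure Z w _ p hp (by omega)) hx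

end Pool.Agent.T6.H33.BC
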