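import Mathlib

/-!
# The inverse of the Lefschetz operator, from the commutation relation
-/

set_option autoImplicit false

universe u

namespace Pool.Agent.T6.H33.BC

variable {K V : Type u} [Field K] [AddCommGroup V] [Module K V]

/-- A graded space with operators `L` and `Λ` of degrees `2` and `-2` and `[L, Λ] = l - n` on `G l`. -/
structure Lef (G : ℕ → Submodule K V) (n : ℕ) (L Λ : V →ₗ[K] V) : Prop where
  L_mem : ∀ l, ∀ a ∈ G l, L a ∈ G (l + 2)
  lam_mem : ∀ l, ∀ a ∈ G (l + 2), Λ a ∈ G l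
  lam_zero : ∀ l, l < 2 → ∀ a ∈ G l, Λ a = 0
  top : ∀ l, 2 * n < l → ∀ a ∈ G l, a = 0
  comm : ∀ l, ∀ a ∈ G l, L (Λ a) - Λ (L a) = ((l : K) - n) • a

namespace Lef

variable {G : ℕ → Submodule K V} {n : ℕ} {L Λ : V →ₗ[K] V} (h : Lef G n L Λ)
include h

lemma L_pow_mem (k : ℕ) : ∀ l, ∀ a ∈ G l, (L ^ k) a ∈ G (l + 2 * k) := by
  induction k with
  | zero => intro l a ha; simpa using ha
  | succ k ih =>
    intro l a ha
    rw [pow_succ', Module.End.mul_apply]
    exact h.L_mem _ _ (ih l a ha)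

lemma lam_pow_mem (k : ℕ) : ∀ l, ∀ a ∈ G (l + 2 * k), (Λ ^ k) a ∈ G l := by
  induction k with
  | zero => intro l a ha; simpa using ha
  | succ k ih =>
    intro l a ha
    rw [pow_succ, Module.End.mul_apply]
    exact ih l _ (h.lam_mem _ _ ha)

/-- `Λ L^k a = L^k Λ a - k (l - n + k - 1) L^(k-1) a` -/
lemma lam_L_pow (k : ℕ) : ∀ l, ∀ a ∈ G l,
    Λ ((L ^ (k + 1)) a) = (L ^ (k + 1)) (Λ a) - (((k : K) + 1) * ((l : K) - n + k)) • (L ^ k) a := by
  induction k with
  | zero =>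
    intro l a ha
    have h1 := h.comm l a ha
    rw [zero_add, pow_one, pow_zero, Module.End.one_apply]
    have h2 : Λ (L a) = L (Λ a) - ((l : K) - n) • a := by rw [← h1]; abel
    rw [h2]
    push_cast
    module
  | succ k ih =>
    intro l a ha
    have h1 := h.comm _ _ (h.L_pow_mem (k + 1) l a ha)
    have h2 : Λ (L ((L ^ (k + 1)) a)) =
        L (Λ ((L ^ (k + 1)) a)) - (((l + 2 * (k + 1) : ℕ) : K) - n) • (L ^ (k + 1)) a := by rw [← h1]; abel
    rw [pow_succ' L (k + 1), Module.End.mul_apply, h2, ih l a ha, map_sub, map_smul, ← Module.End.mul_apply L (L ^ k),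
      ← pow_succ', Module.End.mul_apply]
    push_cast
    module

/-- `L Λ^k a = Λ^k L a + k (l - n - k + 1) Λ^(k-1) a` -/
lemma L_lam_pow (k : ℕ) : ∀ l, ∀ a ∈ G (l + 2 * k),
    L ((Λ ^ (k + 1)) a) = (Λ ^ (k + 1)) (L a) + (((k : K) + 1) * ((l : K) + k - n)) • (Λ ^ k) a := by
  induction k with
  | zero =>
    intro l a ha
    have h1 := h.comm (l + 2 * 0) a ha
    rw [zero_add, pow_one, pow_zero, Module.End.one_apply]
    have h2 : L (Λ a) = Λ (L a) + (((l + 2 * 0 : ℕ) : K) - n) • a := by rw [← h1]; abel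
    rw [h2]
    push_cast
    module
  | succ k ih =>
    intro l a ha
    have ha' : a ∈ G (l + 2 + 2 * k) := by
      have e : l + 2 + 2 * k = l + 2 * (k + 1) := by ring
      rwa [e]
    have h0 := h.lam_pow_mem k (l + 2) a ha'
    have h1 := ih (l + 2) a ha'
    have h3 : (Λ ^ (k + 1)) a ∈ G l := by
      rw [pow_succ', Module.End.mul_apply]
      exact h.lam_mem _ _ h0
    have h4 := h.comm l _ h3
    have h2 : L (Λ ((Λ ^ (k + 1)) a)) = Λ (L ((Λ ^ (k + 1)) a)) + ((l : K) - n) • (Λ ^ (k + 1)) a := by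
      rw [← h4]; abel
    rw [pow_succ' Λ (k + 1), Module.End.mul_apply, h2, h1, map_add, map_smul, ← Module.End.mul_apply Λ (Λ ^ k),
      ← pow_succ', Module.End.mul_apply]
    push_cast
    module

end Lef

/-- the numbers `∏ (s + 1) (r - s)` -/
def cN (r : ℕ) : ℕ → ℕ
  | 0 => 1
  | k + 1 => (k + 1) * (r - k) * cN r k

lemma cN_pos (r k : ℕ) (hk : k ≤ r) : 0 < cN r k := by
  induction k with
  | zero => exact Nat.one_pos
  | succ k ih =>
    rw [cN]
    exact Nat.mul_pos (Nat.mul_pos (Nat.succ_pos k) (by omega)) (ih (by omega))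

namespace Lef

variable {G : ℕ → Submodule K V} {n : ℕ} {L Λ : V →ₗ[K] V} (h : Lef G n L Λ)
include h

lemma low {j r : ℕ} (hj : j + r = n) {x : V} (hx : x ∈ G j) (h0 : Λ x = 0) (k : ℕ) (hk : k ≤ r) :
    (Λ ^ k) ((L ^ k) x) = (cN r k : K) • x := by
  induction k with
  | zero => rw [cN, pow_zero, pow_zero]; simp
  | succ k ih =>
    rw [pow_succ Λ, Module.End.mul_apply, h.lam_L_pow k j x hx, h0, map_zero, zero_sub, map_neg, map_smul,
      ih (by omega), cN, smul_smul, ← neg_smul]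
    congr 1
    have e1 : ((r - k : ℕ) : K) = (r : K) - k := by rw [Nat.cast_sub (by omega)]
    have e2 : (n : K) = j + r := by rw [← hj]; push_cast; ring
    push_cast
    rw [e1, e2]
    ring

lemma high {j r : ℕ} (hj : j + r = n) {y : V} (hy : y ∈ G (j + 2 * r)) (h0 : L y = 0) (k : ℕ) (hk : k ≤ r) :
    (L ^ k) ((Λ ^ k) y) = (cN r k : K) • y := by
  induction k with
  | zero => rw [cN, pow_zero, pow_zero]; simp
  | succ k ih =>
    have hy' : y ∈ G (j + 2 * (r - k) + 2 * k) := by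
      have e : j + 2 * (r - k) + 2 * k = j + 2 * r := by omega
      rwa [e]
    rw [pow_succ L, Module.End.mul_apply, h.L_lam_pow k _ y hy', h0, map_zero, zero_add, map_smul,
      ih (by omega), cN, smul_smul]
    congr 1
    have e1 : ((r - k : ℕ) : K) = (r : K) - k := by rw [Nat.cast_sub (by omega)]
    have e2 : (n : K) = j + r := by rw [← hj]; push_cast; ring
    push_cast
    rw [e1, e2]
    ring

end Lef

/-- A class of operators with codimensions, closed under composition and rational linear combinations. -/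
structure Ops (A : ℕ → (V →ₗ[K] V) → Prop) (n : ℕ) (L Λ : V →ₗ[K] V) : Prop where
  comp : ∀ e e' f (T T' : V →ₗ[K] V), A e T → A e' T' → e + e' = f + n → A f (T' * T)
  add : ∀ e (T T' : V →ₗ[K] V), A e T → A e T' → A e (T + T')
  smul : ∀ e (q : ℚ) (T : V →ₗ[K] V), A e T → A e ((q : K) • T)
  one : A n 1
  L : A (n + 1) L
  lam : ∀ e, e + 1 = n → A e Λ

namespace Ops

variable {A : ℕ → (V →ₗ[K] V) → Prop} {G : ℕ → Submodule K V} {n : ℕ} {L Λ : V →ₗ[K] V} (hA : Ops A n L Λ)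
include hA

lemma L_pow (k : ℕ) : A (n + k) (L ^ k) := by
  induction k with
  | zero => rw [pow_zero]; exact hA.one
  | succ k ih => rw [pow_succ']; exact hA.comp _ _ _ _ _ ih hA.L (by omega)

lemma lam_pow (k : ℕ) : ∀ e, e + k = n → A e (Λ ^ k) := by
  induction k with
  | zero =>
    intro e he
    have he' : e = n := by omega
    rw [pow_zero, he']
    exact hA.one
  | succ k ih =>
    intro e he
    rw [pow_succ']
    exact hA.comp _ _ _ _ _ (ih (e + 1) (by omega)) (hA.lam (n - 1) (by omega)) (by omega)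

/-- The inverse of the Lefschetz operator. -/
theorem exists_inverse [CharZero K] (h : Lef G n L Λ) (j : ℕ) : ∀ r, j + r = n → ∃ lam : V →ₗ[K] V, A j lam ∧
    (∀ b ∈ G (j + 2 * r), lam b ∈ G j) ∧ (∀ a ∈ G j, lam ((L ^ r) a) = a) ∧
    ∀ b ∈ G (j + 2 * r), (L ^ r) (lam b) = b := by
  induction j using Nat.strong_induction_on with
  | _ j ih =>
  intro r hr
  have hc : ((cN r r : ℕ) : K) ≠ 0 := by exact_mod_cast (cN_pos r r le_rfl).ne'
  have hcq : ((((cN r r : ℕ) : ℚ)⁻¹ : ℚ) : K) = ((cN r r : ℕ) : K)⁻¹ := by push_cast; rfl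
  have hinv : ∀ x : V, ((cN r r : ℕ) : K)⁻¹ • ((cN r r : ℕ) : K) • x = x := fun x => by
    rw [smul_smul, inv_mul_cancel₀ hc, one_smul]
  rcases Nat.lt_or_ge j 2 with hj | hj
  · refine ⟨((((cN r r : ℕ) : ℚ)⁻¹ : ℚ) : K) • Λ ^ r, hA.smul _ _ _ (hA.lam_pow r j hr), ?_, ?_, ?_⟩
    · intro b hb
      exact Submodule.smul_mem _ _ (h.lam_pow_mem r j b hb)
    · intro a ha
      rw [LinearMap.smul_apply, h.low hr ha (h.lam_zero j hj a ha) r le_rfl, hcq, hinv]
    · intro b hb
      have h0 : L b = 0 := h.top _ (by omega) _ (h.L_mem _ b hb)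
      rw [LinearMap.smul_apply, map_smul, h.high hr hb h0 r le_rfl, hcq, hinv]
  · obtain ⟨i, rfl⟩ : ∃ i, j = i + 2 := ⟨j - 2, by omega⟩
    obtain ⟨lam, hlam, hm, h1, h2⟩ := ih i (by omega) (r + 2) (by omega)
    have e0 : i + 2 * (r + 2) = i + 2 + 2 * r + 2 := by ring
    rw [e0] at hm h2
    have hLL : A (i + 1) (lam * L) := hA.comp _ _ _ _ _ hA.L hlam (by omega)
    have hL1 : A (i + 2) (L * (lam * L)) := hA.comp _ _ _ _ _ hLL hA.L (by omega)
    have hL2 : A (i + 2 + r) (L ^ (r + 1) * (lam * L)) := hA.comp _ _ _ _ _ hLL (hA.L_pow (r + 1)) (by omega)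
    have hT : A n (1 + ((-1 : ℚ) : K) • (L ^ (r + 1) * (lam * L))) := by
      have := hA.add _ _ _ hA.one (hA.smul _ (-1) _ (hr ▸ hL2))
      exact this
    have hT2 : A (i + 2) (Λ ^ r * (1 + ((-1 : ℚ) : K) • (L ^ (r + 1) * (lam * L)))) :=
      hA.comp _ _ _ _ _ hT (hA.lam_pow r (i + 2) hr) (by omega)
    refine ⟨((((cN r r : ℕ) : ℚ)⁻¹ : ℚ) : K) • (Λ ^ r * (1 + ((-1 : ℚ) : K) • (L ^ (r + 1) * (lam * L)))) +
      L * (lam * L), hA.add _ _ _ (hA.smul _ _ _ hT2) hL1, ?_, ?_, ?_⟩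
    all_goals
      have happ : ∀ b : V, (((((cN r r : ℕ) : ℚ)⁻¹ : ℚ) : K) •
          (Λ ^ r * (1 + ((-1 : ℚ) : K) • (L ^ (r + 1) * (lam * L)))) + L * (lam * L)) b =
          ((cN r r : ℕ) : K)⁻¹ • (Λ ^ r) (b - (L ^ (r + 1)) (lam (L b))) + L (lam (L b)) := by
        intro b
        simp only [LinearMap.add_apply, LinearMap.smul_apply, LinearMap.sub_apply, Module.End.mul_apply,
          Module.End.one_apply, hcq, Rat.cast_neg, Rat.cast_one, neg_smul, one_smul, ← sub_eq_add_neg]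
    · intro b hb
      have hb1 : lam (L b) ∈ G i := hm _ (h.L_mem _ b hb)
      have hb0 : b - (L ^ (r + 1)) (lam (L b)) ∈ G (i + 2 + 2 * r) := by
        refine Submodule.sub_mem _ hb ?_
        have := h.L_pow_mem (r + 1) i _ hb1
        have e : i + 2 * (r + 1) = i + 2 + 2 * r := by ring
        rwa [e] at this
      rw [happ]
      exact Submodule.add_mem _ (Submodule.smul_mem _ _ (h.lam_pow_mem r _ _ hb0)) (h.L_mem _ _ hb1)
    · intro a ha
      have hLa : (L ^ (r + 1)) a ∈ G (i + 2 + 2 * r + 2) := by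
        have := h.L_pow_mem (r + 1) _ a ha
        have e : i + 2 + 2 * (r + 1) = i + 2 + 2 * r + 2 := by ring
        rwa [e] at this
      have e1 : L ((L ^ r) a) = (L ^ (r + 1)) a := by rw [pow_succ', Module.End.mul_apply]
      rw [happ, e1]
      have hx1 : lam ((L ^ (r + 1)) a) ∈ G i := hm _ hLa
      have hx2 : (L ^ (r + 2)) (lam ((L ^ (r + 1)) a)) = (L ^ (r + 1)) a := h2 _ hLa
      generalize lam ((L ^ (r + 1)) a) = x1 at hx1 hx2 ⊢
      have ha0 : a - L x1 ∈ G (i + 2) := Submodule.sub_mem _ ha (h.L_mem _ _ hx1)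
      have hL0 : (L ^ (r + 1)) (a - L x1) = 0 := by
        rw [map_sub, ← Module.End.mul_apply (L ^ (r + 1)) L, ← pow_succ, hx2, sub_self]
      have hz : Λ (a - L x1) = 0 := by
        have hz1 := h.lam_L_pow (r + 1) _ _ ha0
        rw [hL0, smul_zero, sub_zero, pow_succ' L (r + 1), Module.End.mul_apply, hL0, map_zero, map_zero,
          ← pow_succ'] at hz1
        have hz2 := h1 _ (h.lam_mem _ _ ha0)
        rw [show r + 2 = r + 1 + 1 from rfl, ← hz1, map_zero] at hz2
        exact hz2.symm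
      have h3 := h.low hr ha0 hz r le_rfl
      have e2 : (L ^ r) a - (L ^ (r + 1)) x1 = (L ^ r) (a - L x1) := by
        rw [map_sub, pow_succ, Module.End.mul_apply]
      rw [e2, h3, hinv]
      abel
    · intro b hb
      have hb1 : lam (L b) ∈ G i := hm _ (h.L_mem _ b hb)
      have hb2 : (L ^ (r + 2)) (lam (L b)) = L b := h2 _ (h.L_mem _ b hb)
      rw [happ]
      generalize lam (L b) = b1 at hb1 hb2 ⊢
      have hb0 : b - (L ^ (r + 1)) b1 ∈ G (i + 2 + 2 * r) := by
        refine Submodule.sub_mem _ hb ?_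
        have := h.L_pow_mem (r + 1) i _ hb1
        have e : i + 2 * (r + 1) = i + 2 + 2 * r := by ring
        rwa [e] at this
      have hL0 : L (b - (L ^ (r + 1)) b1) = 0 := by
        rw [map_sub, ← Module.End.mul_apply L (L ^ (r + 1)), ← pow_succ', hb2, sub_self]
      rw [map_add, map_smul, h.high hr hb0 hL0 r le_rfl, hinv, ← Module.End.mul_apply (L ^ r) L, ← pow_succ]
      abel

end Ops

end Pool.Agent.T6.H33.BC
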