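import Pool.Agent.T6.H33.BC.Main
import Pool.Agent.T6.H33.BC.Sl2

/-!
# The standard conjecture of Lefschetz type for products of pointed curves
-/

set_option autoImplicit false

open CategoryTheory CategoryTheory.Limits AlgebraicGeometry
open Pool.Agent.H914 Pool.Agent.H914.VarClass Pool.Agent.H914.VarClass.Obj Pool.Agent.R903
open Pool.Agent.R903.WeilTheory Pool.Agent.T6.H15.BB

universe u v w

namespace Pool.Agent.T6.H33.BC

variable {k : Type u} [Field k] {𝒱 : VarClass k} {C : ChowTheory.{u, v} 𝒱}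
  {W : WeilTheory.{u, v, w} C} {X Y Z T E : 𝒱.Obj}

lemma act_powCorr_H (D : C.CH X) (r : ℕ) (a : W.H X) : W.act (powCorr C D r) a = W.cl X D ^ r * a := by
  rw [powCorr_eq, W.act_span, W.map_id, W.push_id, map_pow]

/-- the commutation relation of the operator `Λ` given by a correspondence with the cup product with `D` -/
def Comm (W : WeilTheory.{u, v, w} C) (Z : 𝒱.Obj) (D : C.CH Z) (lam : C.CH (Z.prod Z)) : Prop :=
  ∀ c : W.H Z, W.cl Z D * W.act lam c - W.act lam (W.cl Z D * c) =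
    scal (W.isInternal Z) (fun i => (i : W.K) - (Z.dim : W.K)) c

lemma act_opL' {w : C.CH (Y.prod Y)} {e : ℕ} (hw : w ∈ C.gr (Y.prod Y) e) {p : ℕ} {a : W.H X}
    (ha : a ∈ W.gr X p) (b : W.H Y) :
    W.act (C.opL X w) (W.map (fst X Y) a * W.map (snd X Y) b) =
      W.map (fst X Y) a * W.map (snd X Y) (W.act w b) := by
  rw [ChowTheory.opL, act_span, act_apply, W.bc2, ← W.map_push_mul _ (W.map_mem _ ha), W.cl_pull,
    W.map_mul', W.map_mul', ← W.map_comp, ← W.map_comp, ← W.map_comp, ← W.map_comp, p12_fst,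
    p12_snd, p13_fst, ← mul_assoc, ← mul_assoc, W.even_comm (W.map_mem _ (W.cl_mem hw))]

lemma comm_curve (hE : E.dim = 1) {e : C.CH E} (he : e ∈ C.gr E 1) (hd : C.deg E e = 1) :
    Comm W E e (C.ext 1 1) := by
  have hee : W.tr E (W.cl E e) = 1 := by rw [W.tr_cl, hd, Rat.cast_one]
  intro c
  refine gr_induction (W.isInternal E) (p := fun c => W.cl E e * W.act (C.ext 1 1) c -
    W.act (C.ext 1 1) (W.cl E e * c) = scal (W.isInternal E) (fun i => (i : W.K) - (E.dim : W.K)) c) ?_ ?_ c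
  · intro l a ha
    rw [act_ext_H 1 (C.one_mem E), act_ext_H 1 (C.one_mem E), map_one, one_mul, one_mul, scal_apply _ _ ha, hE,
      mul_smul_comm, mul_one]
    rcases Nat.lt_or_ge 2 l with h | h
    · rw [W.gr_eq_bot E l (by omega), Submodule.mem_bot] at ha
      rw [ha]; simp
    interval_cases l
    · obtain ⟨c, rfl⟩ := mem_gr_zero ha
      have h0 : W.tr E (c • (1 : W.H E)) = 0 := W.tr_eq_zero ha (by omega)
      rw [h0, mul_smul_comm, mul_one, map_smul, hee]
      simp
    · rw [W.tr_eq_zero (W.mul_mem (W.cl_mem he) ha) (by omega), W.tr_eq_zero ha (by omega)]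
      simp
    · have h1 : W.tr E a • W.cl E e = a := by
        rw [← sub_eq_zero]
        apply eq_zero_of_tr
        · rw [hE]
          exact Submodule.sub_mem _ (Submodule.smul_mem _ _ (W.cl_mem he)) ha
        · rw [map_sub, map_smul, hee, smul_eq_mul, mul_one, sub_self]
      rw [W.tr_eq_zero (W.mul_mem (W.cl_mem he) ha) (by omega), h1]
      push_cast
      module
  · intro a b ha hb
    rw [map_add, map_add, mul_add, mul_add, map_add, ← ha, ← hb]
    abel

lemma cl_sumDiv (D : C.CH X) (D' : C.CH Y) :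
    W.cl (X.prod Y) (sumDiv C D D') = W.map (fst X Y) (W.cl X D) + W.map (snd X Y) (W.cl Y D') := by
  have hs : sumDiv C D D' = C.pull (fst X Y) D + C.pull (snd X Y) D' := by
    change C.pull (fst X Y) D * C.pull (snd X Y) 1 + C.pull (fst X Y) 1 * C.pull (snd X Y) D' = _
    rw [map_one, map_one, mul_one, one_mul]
  rw [hs, map_add, W.cl_pull, W.cl_pull]

lemma comm_prod {D : C.CH X} {D' : C.CH Y} (hD' : D' ∈ C.gr Y 1) (hD : D ∈ C.gr X 1) {lam : C.CH (X.prod X)}
    {mu : C.CH (Y.prod Y)} {e' : ℕ}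
    (hm : mu ∈ C.gr (Y.prod Y) e') (h : Comm W X D lam)
    (h' : Comm W Y D' mu) : Comm W (X.prod Y) (sumDiv C D D') (C.opM lam Y + C.opL X mu) := by
  intro c
  refine W.kunneth_induction (p := fun c => W.cl (X.prod Y) (sumDiv C D D') * W.act (C.opM lam Y + C.opL X mu) c -
    W.act (C.opM lam Y + C.opL X mu) (W.cl (X.prod Y) (sumDiv C D D') * c) =
      scal (W.isInternal (X.prod Y)) (fun i => (i : W.K) - ((X.prod Y).dim : W.K)) c) ?_ ?_ c
  · intro a b ha hb
    rw [map_add, map_add, mul_add, mul_add, map_add, ← ha, ← hb]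
    abel
  · intro p q a ha b hb
    have hc1 := h a
    have hc2 := h' b
    rw [scal_apply _ _ ha] at hc1
    rw [scal_apply _ _ hb] at hc2
    rw [cl_sumDiv, W.act_add, scal_apply _ _ (W.mul_mem (W.map_mem _ ha) (W.map_mem _ hb))]
    have hDa : W.cl X D * a ∈ W.gr X (2 * 1 + p) := W.mul_mem (W.cl_mem hD) ha
    have key : ∀ (x : W.H X) (y : W.H Y), (W.map (fst X Y) (W.cl X D) + W.map (snd X Y) (W.cl Y D')) *
        (W.map (fst X Y) x * W.map (snd X Y) y) =
        W.map (fst X Y) (W.cl X D * x) * W.map (snd X Y) y + W.map (fst X Y) x * W.map (snd X Y) (W.cl Y D' * y) := by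
      intro x y
      rw [add_mul, ← mul_assoc, ← W.map_mul', ← mul_assoc, W.even_comm (W.map_mem _ (W.cl_mem hD')),
        mul_assoc (W.map (fst X Y) x), ← W.map_mul']
    have hopM : ∀ (x : W.H X) (y : W.H Y), W.act (C.opM lam Y) (W.map (fst X Y) x * W.map (snd X Y) y) =
        W.map (fst X Y) (W.act lam x) * W.map (snd X Y) y := fun x y => W.act_opM x y
    rw [key, map_add, LinearMap.add_apply, LinearMap.add_apply, LinearMap.add_apply, hopM, hopM, hopM,
      act_opL' hm ha, act_opL' hm ha, act_opL' hm hDa, mul_add, key, key]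
    have e1 : W.map (fst X Y) (W.cl X D * W.act lam a) * W.map (snd X Y) b =
        W.map (fst X Y) (W.act lam (W.cl X D * a)) * W.map (snd X Y) b +
          ((p : W.K) - X.dim) • (W.map (fst X Y) a * W.map (snd X Y) b) := by
      rw [← smul_mul_assoc, ← map_smul, ← hc1, map_sub, sub_mul]
      abel
    have e2 : W.map (fst X Y) a * W.map (snd X Y) (W.cl Y D' * W.act mu b) =
        W.map (fst X Y) a * W.map (snd X Y) (W.act mu (W.cl Y D' * b)) +
          ((q : W.K) - Y.dim) • (W.map (fst X Y) a * W.map (snd X Y) b) := by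
      rw [← mul_smul_comm, ← map_smul, ← hc2, map_sub, mul_sub]
      abel
    rw [e1, e2, dim_prod]
    push_cast
    module

lemma opM_mem' {w : C.CH (X.prod X)} {e : ℕ} (hw : w ∈ C.gr (X.prod X) e) :
    C.opM w Y ∈ C.gr ((X.prod Y).prod (X.prod Y)) (e + Y.dim) :=
  C.span_mem _ _ (C.pull_mem _ hw) (by simp only [dim_prod]; omega)

lemma opL_mem' {w : C.CH (Y.prod Y)} {e : ℕ} (hw : w ∈ C.gr (Y.prod Y) e) :
    C.opL X w ∈ C.gr ((X.prod Y).prod (X.prod Y)) (e + X.dim) :=
  C.span_mem _ _ (C.pull_mem _ hw) (by simp only [dim_prod]; omega)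

theorem PointedProd.exists_comm (W : WeilTheory.{u, v, w} C) {D : C.CH Z} {p : C.CH (Z.prod Z)}
    (h : PointedProd C Z D p) :
    D ∈ C.gr Z 1 ∧ ∃ (e : ℕ) (lam : C.CH (Z.prod Z)), e + 1 = Z.dim ∧ lam ∈ C.gr (Z.prod Z) e ∧ Comm W Z D lam := by
  induction h with
  | @curve E e hp =>
    obtain ⟨hE, he, hd, _⟩ := hp
    refine ⟨he, 0, C.ext 1 1, by omega, ?_, comm_curve hE he hd⟩
    exact C.ext_mem (C.one_mem E) (C.one_mem E)
  | @prod X Y D D' p q hp hq ih ih' =>
    obtain ⟨hD, e, lam, he, hl, hc⟩ := ih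
    obtain ⟨hD', e', mu, he', hm, hc'⟩ := ih'
    refine ⟨?_, e + Y.dim, C.opM lam Y + C.opL X mu, by rw [dim_prod]; omega, ?_, comm_prod hD' hD hm hc hc'⟩
    · have h1 := C.ext_mem hD (C.one_mem Y)
      have h2 := C.ext_mem (C.one_mem X) hD'
      exact Submodule.add_mem _ h1 h2
    · refine Submodule.add_mem _ (opM_mem' hl) ?_
      have := opL_mem' (X := X) hm
      have e1 : e' + X.dim = e + Y.dim := by omega
      rwa [e1] at this

/-- The standard conjecture of Lefschetz type holds for products of pointed curves. -/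
theorem stdLefschetz_pointed (W : WeilTheory.{u, v, w} C) {D : C.CH Z} {p : C.CH (Z.prod Z)}
    (h : PointedProd C Z D p) : StdLefschetz W Z D := by
  obtain ⟨hD, e, lam, he, hl, hc⟩ := h.exists_comm W
  refine ⟨hD, ?_⟩
  have hLef : Lef (W.gr Z) Z.dim (W.act (powCorr C D 1)) (W.act lam) := by
    refine ⟨fun l a ha => ?_, fun l a ha => ?_, fun l hl2 a ha => ?_, fun l hl2 a ha => ?_, fun l a ha => ?_⟩
    · rw [act_powCorr_H, pow_one]
      have := W.mul_mem (W.cl_mem hD) ha
      have e1 : 2 * 1 + l = l + 2 := by ring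
      rwa [e1] at this
    · exact act_mem_H hl ha (by omega)
    · exact act_eq_zero_H hl ha (by omega)
    · rwa [W.gr_eq_bot Z l hl2, Submodule.mem_bot] at ha
    · rw [act_powCorr_H, act_powCorr_H, pow_one, hc, scal_apply _ _ ha]
  have hOps : Ops (fun e T => ∃ γ ∈ C.gr (Z.prod Z) e, W.act γ = T) Z.dim (W.act (powCorr C D 1)) (W.act lam) := by
    refine ⟨?_, ?_, ?_, ?_, ?_, ?_⟩
    · rintro e e' f _ _ ⟨γ, hγ, rfl⟩ ⟨γ', hγ', rfl⟩ hf
      exact ⟨C.comp γ γ', C.comp_mem hγ hγ' hf, LinearMap.ext fun a => W.act_comp γ hγ' a⟩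
    · rintro e _ _ ⟨γ, hγ, rfl⟩ ⟨γ', hγ', rfl⟩
      exact ⟨γ + γ', Submodule.add_mem _ hγ hγ', W.act_add γ γ'⟩
    · rintro e q _ ⟨γ, hγ, rfl⟩
      exact ⟨q • γ, Submodule.smul_mem _ _ hγ, W.act_smul q γ⟩
    · exact ⟨C.diagC Z, C.diagC_mem Z, LinearMap.ext fun a => W.act_diagC a⟩
    · exact ⟨powCorr C D 1, by rw [add_comm]; exact powCorr_mem hD 1, rfl⟩
    · intro e1 he1
      have : e1 = e := by omega
      subst this
      exact ⟨lam, hl, rfl⟩
  have hpow : ∀ r, W.act (powCorr C D 1) ^ r = W.act (powCorr C D r) := by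
    intro r
    refine LinearMap.ext fun a => ?_
    rw [act_powCorr_H]
    induction r with
    | zero => simp
    | succ r ih => rw [pow_succ', Module.End.mul_apply, ih, act_powCorr_H, pow_one, pow_succ', mul_assoc]
  intro j r hjr
  obtain ⟨T, ⟨γ, hγ, rfl⟩, _, h1, h2⟩ := hOps.exists_inverse hLef j r hjr
  rw [hpow] at h1 h2
  exact ⟨γ, hγ, h1, h2⟩

theorem curves_tfae (W : WeilTheory.{u, v, w} C) (hC : C.Polarized) (hX : ∀ X : 𝒱.Obj, OfCurves C X) :
    [ ∀ (Z : 𝒱.Obj) (D : C.CH Z) (p : C.CH (Z.prod Z)), PointedProd C Z D p → HardLefschetz W Z D,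
      MultilinearVanishing W,
      CohomologyDecides W,
      ShortFiltration W,
      ∀ (X : 𝒱.Obj) (D : C.CH X), StdLefschetz W X D → HardLefschetz W X D ].TFAE :=
  main_tfae hC hX fun _ _ _ h => stdLefschetz_pointed W h

end Pool.Agent.T6.H33.BC
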